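import Pool.Agent.Lib.MP_716318_co.H.AsmC
import Pool.Agent.Lib.MP_716318_co.H.Bridge

/-!
# MP_716318_co: `m((2,2), n) = (1/2 + o(1)) n^2` (Hamilton cycles).
-/

set_option autoImplicit false

namespace Pool.Agent.Results.MP_716318_co.CycleAsymptotic

open Finset Filter Topology

/-- A Hamilton cycle of the complete graph on `Fin n`, given as the cyclic ordering
`P 0, P 1, …, P (n-1), P 0`, is `(2,2)`-acceptable with respect to the family `F` of 4-sets if no
union of two of its edges `{P i, P (i+1)}`, `{P j, P (j+1)}` is in `F` (`finRotate n i` is `i + 1`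
modulo `n`; the union of two edges with a common vertex is not a 4-set, so it is never in `F`). -/
def AcceptableCycle {n : ℕ} (F : Finset (Finset (Fin n))) (P : Equiv.Perm (Fin n)) : Prop :=
  ∀ i j : Fin n, ({P i, P (finRotate n i), P j, P (finRotate n j)} : Finset (Fin n)) ∉ F

/-- `m((2,2), n)`: the least number of members of a family of four-element subsets of `Fin n` for
which no Hamilton cycle is `(2,2)`-acceptable. -/
noncomputable def m (n : ℕ) : ℕ :=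
  sInf {k : ℕ | ∃ F : Finset (Finset (Fin n)), (∀ A ∈ F, A.card = 4) ∧
    (∀ P : Equiv.Perm (Fin n), ¬ AcceptableCycle F P) ∧ F.card = k}

/-- The set in the definition of `m` is not empty, and its minimum is at most `C(n-2, 2)`. -/
theorem upper (n : ℕ) (hn : 4 ≤ n) :
    ∃ F : Finset (Finset (Fin n)), (∀ A ∈ F, A.card = 4) ∧
      (∀ P : Equiv.Perm (Fin n), ¬ AcceptableCycle F P) ∧ F.card ≤ (n - 2).choose 2 := by
  have hab : (⟨0, by omega⟩ : Fin n) ≠ ⟨1, by omega⟩ := by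
    intro h
    have := congrArg Fin.val h
    simp at this
  refine ⟨Pool.Agent.Ham.star ⟨0, by omega⟩ ⟨1, by omega⟩,
    Pool.Agent.Ham.star_u4 _ _ hab, ?_, Pool.Agent.Ham.star_card _ _ hab⟩
  intro P hP
  obtain ⟨i, j, hi, hj, h⟩ := Pool.Agent.Ham.star_blocks hn _ _ hab P
  have h1 := hP ⟨i, by omega⟩ ⟨j, by omega⟩
  have h2 : ∀ (k : ℕ) (hk : k + 1 < n), finRotate n ⟨k, by omega⟩ = ⟨k + 1, hk⟩ := by
    intro k hk
    obtain ⟨m, rfl⟩ : ∃ m, n = m + 1 := ⟨n - 1, by omega⟩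
    exact finRotate_of_lt (by omega)
  rw [h2 i (by omega), h2 j (by omega)] at h1
  exact h1 h

/-- For every `γ > 0` and all sufficiently large `n`, every family of at most `(1/2 - γ) n^2`
four-element sets has a `(2,2)`-acceptable Hamilton cycle. -/
theorem lower (γ : ℝ) (hγ : 0 < γ) :
    ∃ n0 : ℕ, ∀ n : ℕ, n0 ≤ n → ∀ F : Finset (Finset (Fin n)), (∀ A ∈ F, A.card = 4) →
      (F.card : ℝ) ≤ (1 / 2 - γ) * (n : ℝ) ^ 2 →
      ∃ P : Equiv.Perm (Fin n), AcceptableCycle F P := by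
  obtain ⟨n0, h0⟩ := Pool.Agent.Ham.thAc γ hγ
  refine ⟨n0, fun n hn F hF hc => ?_⟩
  have h1 : Pool.Agent.Ham.AccC F :=
    h0 (Fin n) F hF (by rw [Fintype.card_fin]; exact hn) (by rw [Fintype.card_fin]; exact hc)
  exact Pool.Agent.Ham.bridgeC F h1

/-- `m((2,2), n) = (1/2 + o(1)) n^2`; more precisely: for every `γ > 0` and all large `n` every
family of at most `(1/2 - γ) n^2` four-element sets has a `(2,2)`-acceptable Hamilton cycle, and
`m n / n^2` tends to `1/2`. -/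
theorem result :
    (∀ γ : ℝ, 0 < γ → ∃ n0 : ℕ, ∀ n : ℕ, n0 ≤ n → ∀ F : Finset (Finset (Fin n)),
      (∀ A ∈ F, A.card = 4) → (F.card : ℝ) ≤ (1 / 2 - γ) * (n : ℝ) ^ 2 →
      ∃ P : Equiv.Perm (Fin n), AcceptableCycle F P) ∧
    Tendsto (fun n : ℕ => (m n : ℝ) / (n : ℝ) ^ 2) atTop (𝓝 (1 / 2)) := by
  refine ⟨lower, ?_⟩
  rw [Metric.tendsto_atTop]
  intro ε hε
  obtain ⟨n0, h0⟩ := lower (ε / 2) (by linarith)
  refine ⟨max n0 4, fun n hn => ?_⟩
  have hn0 : n0 ≤ n := le_trans (le_max_left _ _) hn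
  have hn4 : 4 ≤ n := le_trans (le_max_right _ _) hn
  have hnpos : (0 : ℝ) < (n : ℝ) ^ 2 := by
    have : (0 : ℝ) < (n : ℝ) := by exact_mod_cast (by omega : 0 < n)
    positivity
  obtain ⟨F, hF4, hFb, hFc⟩ := upper n hn4
  have hne : {k : ℕ | ∃ F : Finset (Finset (Fin n)), (∀ A ∈ F, A.card = 4) ∧
    (∀ P : Equiv.Perm (Fin n), ¬ AcceptableCycle F P) ∧ F.card = k}.Nonempty :=
    ⟨F.card, F, hF4, hFb, rfl⟩
  have hup : m n ≤ (n - 2).choose 2 := by
    refine le_trans (Nat.sInf_le ⟨F, hF4, hFb, rfl⟩) hFc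
  have hup2 : (m n : ℝ) ≤ (n : ℝ) ^ 2 / 2 := by
    have h1 : (m n : ℝ) ≤ ((n - 2).choose 2 : ℕ) := by exact_mod_cast hup
    have h2 : (((n - 2).choose 2 : ℕ) : ℝ) ≤ (n : ℝ) ^ 2 / 2 := by
      rw [Nat.cast_choose_two]
      have h3 : ((n - 2 : ℕ) : ℝ) = (n : ℝ) - 2 := by
        rw [Nat.cast_sub (by omega)]; norm_num
      rw [h3]
      have h4 : (4 : ℝ) ≤ (n : ℝ) := by exact_mod_cast hn4
      nlinarith
    linarith
  have hlow : (1 / 2 - ε / 2) * (n : ℝ) ^ 2 < (m n : ℝ) := by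
    obtain ⟨G, hG4, hGb, hGc⟩ := Nat.sInf_mem hne
    have hGc' : G.card = m n := hGc
    by_contra hcon
    push Not at hcon
    rw [← hGc'] at hcon
    obtain ⟨P, hP⟩ := h0 n hn0 G hG4 hcon
    exact hGb P hP
  rw [Real.dist_eq, abs_lt]
  constructor
  · have h5 : 1 / 2 - ε / 2 < (m n : ℝ) / (n : ℝ) ^ 2 := by
      rw [lt_div_iff₀ hnpos]; exact hlow
    linarith
  · have h6 : (m n : ℝ) / (n : ℝ) ^ 2 ≤ 1 / 2 := by
      rw [div_le_iff₀ hnpos]; linarith
    linarith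

end Pool.Agent.Results.MP_716318_co.CycleAsymptotic
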