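import Pool.Agent.Lib.MP_716318_co.H.AsmB
import Pool.Agent.Lib.MP_716318_co.H.Bridge

/-!
# MP_716318_co: for all sufficiently large `n` the least size of a family of 4-sets blocking all
(2,2)-acceptable Hamilton paths is exactly `C(n-2, 2)`.
-/

set_option autoImplicit false

namespace Pool.Agent.Results.MP_716318_co.ExactLargeN

open Finset

/-- A Hamilton path of the complete graph on `Fin n`, given as the ordering
`P 0, P 1, …, P (n-1)` of its vertices, is `(2,2)`-acceptable with respect to `F` if no two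
vertex-disjoint edges `{P i, P (i+1)}`, `{P j, P (j+1)}` (`i + 1 < j`) have their union in `F`. -/
def Acceptable {n : ℕ} (F : Finset (Finset (Fin n))) (P : Equiv.Perm (Fin n)) : Prop :=
  ∀ (i j : ℕ) (hi : i + 1 < j) (hj : j + 1 < n),
    ({P ⟨i, by omega⟩, P ⟨i + 1, by omega⟩, P ⟨j, by omega⟩, P ⟨j + 1, hj⟩} : Finset (Fin n)) ∉ F

/-- For all sufficiently large `n`: (1) for every family `F` of fewer than `C(n-2, 2)` four-element
sets there is a `(2,2)`-acceptable Hamilton path; (2) some family of exactly `C(n-2, 2)` four-element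
sets has no `(2,2)`-acceptable Hamilton path. So the least size of a blocking family is exactly
`C(n-2, 2)`. -/
theorem result :
    ∃ n0 : ℕ, ∀ n : ℕ, n0 ≤ n →
      (∀ F : Finset (Finset (Fin n)), (∀ A ∈ F, A.card = 4) → F.card < (n - 2).choose 2 →
        ∃ P : Equiv.Perm (Fin n), Acceptable F P) ∧
      (∃ F : Finset (Finset (Fin n)), (∀ A ∈ F, A.card = 4) ∧ F.card = (n - 2).choose 2 ∧
        ∀ P : Equiv.Perm (Fin n), ¬ Acceptable F P) := by
  obtain ⟨n0, h0⟩ := Pool.Agent.Ham.main
  refine ⟨max n0 4, fun n hn => ?_⟩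
  have hn0 : n0 ≤ n := le_trans (le_max_left _ _) hn
  have hn4 : 4 ≤ n := le_trans (le_max_right _ _) hn
  have low : ∀ F : Finset (Finset (Fin n)), (∀ A ∈ F, A.card = 4) → F.card < (n - 2).choose 2 →
      ∃ P : Equiv.Perm (Fin n), Acceptable F P := by
    intro F hF hc
    have h1 : Pool.Agent.Ham.Acc F :=
      h0 (Fin n) F hF (by rw [Fintype.card_fin]; exact hn0) (by rw [Fintype.card_fin]; exact hc)
    exact Pool.Agent.Ham.bridge F h1
  refine ⟨low, ?_⟩
  have hab : (⟨0, by omega⟩ : Fin n) ≠ ⟨1, by omega⟩ := by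
    intro h
    have := congrArg Fin.val h
    simp at this
  have hb : ∀ P : Equiv.Perm (Fin n),
      ¬ Acceptable (Pool.Agent.Ham.star (⟨0, by omega⟩ : Fin n) ⟨1, by omega⟩) P := by
    intro P hP
    obtain ⟨i, j, hi, hj, h⟩ := Pool.Agent.Ham.star_blocks hn4 _ _ hab P
    exact hP i j hi hj h
  refine ⟨_, Pool.Agent.Ham.star_u4 _ _ hab,
    le_antisymm (Pool.Agent.Ham.star_card _ _ hab) ?_, hb⟩
  by_contra hcon
  push Not at hcon
  obtain ⟨P, hP⟩ := low _ (Pool.Agent.Ham.star_u4 _ _ hab) hcon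
  exact hb P hP

end Pool.Agent.Results.MP_716318_co.ExactLargeN
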