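import Mathlib

set_option autoImplicit false

namespace Pool.Agent.Results.MP_716318_co.SmallN

open Finset

/-- A Hamilton path of the complete graph on `Fin n`, given as the ordering
`P 0, P 1, …, P (n-1)` of its vertices, is `(2,2)`-acceptable with respect to `F` if no two
vertex-disjoint edges `{P i, P (i+1)}`, `{P j, P (j+1)}` (`i + 1 < j`) have their union in `F`. -/
def Acceptable {n : ℕ} (F : Finset (Finset (Fin n))) (P : Equiv.Perm (Fin n)) : Prop :=
  ∀ (i j : ℕ) (hi : i + 1 < j) (hj : j + 1 < n),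
    ({P ⟨i, by omega⟩, P ⟨i + 1, by omega⟩, P ⟨j, by omega⟩, P ⟨j + 1, hj⟩} : Finset (Fin n)) ∉ F

/-- four-element subsets of `{0,…,4}` -/
def F6 : Finset (Finset (Fin 6)) :=
  univ.filter fun S => S.card = 4 ∧ 5 ∉ S

/-- sets with two elements in `{0,1,2}` and two elements in `{3,4,5}` -/
def F7 : Finset (Finset (Fin 7)) :=
  univ.filter fun S => (S ∩ {0, 1, 2}).card = 2 ∧ (S ∩ {3, 4, 5}).card = 2 ∧ 6 ∉ S

theorem card_F6 : F6.card = 5 := by decide +kernel

theorem card_F7 : F7.card = 9 := by decide +kernel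

/-- colour of a vertex -/
def col (x : Fin 7) : Fin 3 := if x.val < 3 then 0 else if x.val < 6 then 1 else 2

theorem colour_patterns : ∀ c : Fin 7 → Fin 3,
    (univ.filter (fun i => c i = 0)).card = 3 → (univ.filter (fun i => c i = 1)).card = 3 →
    ∃ i j : Fin 6, i.val + 1 < j.val ∧
      ((c i.castSucc = 0 ∧ c i.succ = 0 ∧ c j.castSucc = 1 ∧ c j.succ = 1) ∨
       (c i.castSucc = 1 ∧ c i.succ = 1 ∧ c j.castSucc = 0 ∧ c j.succ = 0) ∨
       (((c i.castSucc = 0 ∧ c i.succ = 1) ∨ (c i.castSucc = 1 ∧ c i.succ = 0)) ∧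
        ((c j.castSucc = 0 ∧ c j.succ = 1) ∨ (c j.castSucc = 1 ∧ c j.succ = 0)))) := by
  decide +kernel

theorem mem_F7 : ∀ x y z w : Fin 7, x ≠ y → x ≠ z → x ≠ w → y ≠ z → y ≠ w → z ≠ w →
    ((col x = 0 ∧ col y = 0 ∧ col z = 1 ∧ col w = 1) ∨
     (col x = 1 ∧ col y = 1 ∧ col z = 0 ∧ col w = 0) ∨
     (((col x = 0 ∧ col y = 1) ∨ (col x = 1 ∧ col y = 0)) ∧
      ((col z = 0 ∧ col w = 1) ∨ (col z = 1 ∧ col w = 0)))) →
    ({x, y, z, w} : Finset (Fin 7)) ∈ F7 := by
  decide +kernel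

theorem card_col (P : Equiv.Perm (Fin 7)) (a : Fin 3) :
    (univ.filter (fun i => col (P i) = a)).card = (univ.filter (fun i => col i = a)).card := by
  have h : (univ.filter (fun i => col (P i) = a)).map P.toEmbedding =
      univ.filter (fun i => col i = a) := by
    ext x
    rw [mem_map_equiv, mem_filter, mem_filter]
    simp
  rw [← h, card_map]

theorem blocked7 (P : Equiv.Perm (Fin 7)) : ¬ Acceptable F7 P := by
  intro h
  obtain ⟨i, j, hij, hc⟩ := colour_patterns (fun i => col (P i))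
    (by rw [card_col]; decide) (by rw [card_col]; decide)
  have hi := i.isLt
  have hj := j.isLt
  have hne : ∀ u v : Fin 7, u ≠ v → P u ≠ P v := fun u v huv he => huv (P.injective he)
  refine h i.val j.val hij (by omega) (mem_F7 _ _ _ _ ?_ ?_ ?_ ?_ ?_ ?_ hc)
  all_goals
    apply hne
    intro he
    have := congrArg Fin.val he
    simp at this
    try omega

theorem positions : ∀ p : Fin 6, ∃ i j : Fin 5, i.val + 1 < j.val ∧ i.castSucc ≠ p ∧
    i.succ ≠ p ∧ j.castSucc ≠ p ∧ j.succ ≠ p := by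
  decide

theorem mem_F6 : ∀ x y z w : Fin 6, x ≠ y → x ≠ z → x ≠ w → y ≠ z → y ≠ w → z ≠ w →
    x ≠ 5 → y ≠ 5 → z ≠ 5 → w ≠ 5 → ({x, y, z, w} : Finset (Fin 6)) ∈ F6 := by
  decide +kernel

theorem blocked6 (P : Equiv.Perm (Fin 6)) : ¬ Acceptable F6 P := by
  intro h
  obtain ⟨i, j, hij, h1, h2, h3, h4⟩ := positions (P.symm 5)
  have hi := i.isLt
  have hj := j.isLt
  have hne : ∀ u v : Fin 6, u ≠ v → P u ≠ P v := fun u v huv he => huv (P.injective he)
  have h5 : ∀ u : Fin 6, u ≠ P.symm 5 → P u ≠ 5 := by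
    intro u hu he
    apply hu
    rw [← he, Equiv.symm_apply_apply]
  refine h i.val j.val hij (by omega) (mem_F6 _ _ _ _ ?_ ?_ ?_ ?_ ?_ ?_
    (h5 _ h1) (h5 _ h2) (h5 _ h3) (h5 _ h4))
  all_goals
    apply hne
    intro he
    have := congrArg Fin.val he
    simp at this
    try omega

/-- **Result.** For `n = 6` and for `n = 7` there is a family `F` of fewer than `C(n-2, 2)`
four-element subsets of the vertex set such that no Hamilton path of the complete graph is
`(2,2)`-acceptable with respect to `F`. -/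
theorem result : ∀ n : ℕ, n = 6 ∨ n = 7 →
    ∃ F : Finset (Finset (Fin n)), (∀ S ∈ F, S.card = 4) ∧ F.card < (n - 2).choose 2 ∧
      ∀ P : Equiv.Perm (Fin n), ¬ Acceptable F P := by
  rintro n (rfl | rfl)
  · exact ⟨F6, by decide +kernel, by rw [card_F6]; decide, blocked6⟩
  · exact ⟨F7, by decide +kernel, by rw [card_F7]; decide, blocked7⟩

end Pool.Agent.Results.MP_716318_co.SmallN
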